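import Mathlib
import Pool.Agent.TH407.AR.Defs
set_option autoImplicit false

namespace Pool.Agent.TH370.VR

open Pool.Agent.TH407 Pool.Agent.TH407.AR
open MeasureTheory Set Complex
open scoped ENNReal NNReal Real

lemma measurable_sq : Measurable AR.sq := by unfold AR.sq; fun_prop

lemma measurable_bas : Measurable bas := by
  unfold bas
  have := measurable_sq
  fun_prop

lemma measurable_ang : Measurable ang := by
  unfold ang
  have h : (fun x : ℝ × ℝ => (polarCoord x).2) =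
      fun x : ℝ × ℝ => Complex.arg (Complex.equivRealProd.symm x) := by
    funext x
    rfl
  rw [h]
  refine Complex.measurable_arg.comp ?_
  exact Complex.measurableEquivRealProd.symm.measurable

lemma sq_nonneg' (x : ℝ × ℝ) : 0 ≤ AR.sq x := by unfold AR.sq; positivity

lemma bas_nonneg (x : ℝ × ℝ) : 0 ≤ bas x := by unfold bas; positivity

lemma bas_le (x : ℝ × ℝ) : bas x ≤ Real.exp (-(1 / 2) * x.1 ^ 2) * Real.exp (-(1 / 2) * x.2 ^ 2) := by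
  unfold bas
  rw [← Real.exp_add]
  have h0 := sq_nonneg' x
  have e1 : -(1 / 2) * x.1 ^ 2 + -(1 / 2) * x.2 ^ 2 = -(AR.sq x / 2) := by unfold AR.sq; ring
  rw [e1]
  have e2 : Real.exp (-AR.sq x) = Real.exp (-(AR.sq x / 2)) * Real.exp (-(AR.sq x / 2)) := by
    rw [← Real.exp_add]; ring_nf
  rw [e2, ← mul_assoc]
  have h1 : √(AR.sq x) * Real.exp (-(AR.sq x / 2)) ≤ 1 := by
    rw [Real.exp_neg, ← div_eq_mul_inv, div_le_one (Real.exp_pos _)]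
    rw [Real.sqrt_le_left (Real.exp_pos _).le, ← Real.exp_nat_mul]
    have h2 := Real.add_one_le_exp (AR.sq x)
    have e3 : ((2 : ℕ) : ℝ) * (AR.sq x / 2) = AR.sq x := by push_cast; ring
    rw [e3]
    linarith
  calc √(AR.sq x) * Real.exp (-(AR.sq x / 2)) * Real.exp (-(AR.sq x / 2))
      ≤ 1 * Real.exp (-(AR.sq x / 2)) := by gcongr
    _ = _ := one_mul _

lemma integrable_bas : Integrable bas := by
  have h1 : Integrable fun x : ℝ => Real.exp (-(1 / 2) * x ^ 2) :=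
    integrable_exp_neg_mul_sq (by norm_num)
  have h2 : Integrable fun x : ℝ × ℝ =>
      Real.exp (-(1 / 2) * x.1 ^ 2) * Real.exp (-(1 / 2) * x.2 ^ 2) := h1.mul_prod h1
  refine h2.mono' measurable_bas.aestronglyMeasurable (Filter.Eventually.of_forall fun x => ?_)
  rw [Real.norm_of_nonneg (bas_nonneg x)]
  exact bas_le x

/-- the formula for the low frequency part -/
lemma EX_low (a : ℝ → ℝ → ℂ) (B T : ℝ) (hm : Measurable (Function.uncurry (ah a)))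
    (hb : ∀ κ θ, ‖ah a κ θ‖ ≤ B) (X : ℝ × ℝ) (t : ℝ) :
    EX (fa (aT a T)) X t = ((2 * π : ℝ) : ℂ)⁻¹ *
      ∫ κ in Icc (-(T / 2)) (T / 2), EX (bg (ah a κ)) X (t - κ) := by
  have hms := measurable_sq
  have hmb := measurable_bas
  have hma := measurable_ang
  set Φ : (ℝ × ℝ) → ℝ → ℂ := fun x κ =>
    cexp (-(I * ((x.1 * X.1 + x.2 * X.2 + AR.sq x * t : ℝ) : ℂ))) * ((bas x : ℂ) *
      (cexp (I * ((κ * AR.sq x : ℝ) : ℂ)) * ah a κ (ang x))) with hΦ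
  have hmΦ : Measurable (Function.uncurry Φ) := by
    have h1 : Measurable fun p : (ℝ × ℝ) × ℝ => ah a p.2 (ang p.1) :=
      hm.comp (measurable_snd.prodMk (hma.comp measurable_fst))
    show Measurable fun p : (ℝ × ℝ) × ℝ => Φ p.1 p.2
    simp only [hΦ]
    fun_prop
  have hint : Integrable (Function.uncurry Φ)
      ((volume : Measure (ℝ × ℝ)).prod (volume.restrict (Icc (-(T / 2)) (T / 2)))) := by
    have h1 : Integrable (fun _ : ℝ => B) (volume.restrict (Icc (-(T / 2)) (T / 2))) :=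
      integrable_const _
    have h2 := integrable_bas.mul_prod h1
    refine h2.mono' hmΦ.aestronglyMeasurable (Filter.Eventually.of_forall fun p => ?_)
    show ‖Φ p.1 p.2‖ ≤ bas p.1 * B
    simp only [hΦ]
    rw [norm_mul, norm_mul, norm_mul, Complex.norm_real, Real.norm_of_nonneg (bas_nonneg _)]
    have e1 : ‖cexp (-(I * ((p.1.1 * X.1 + p.1.2 * X.2 + AR.sq p.1 * t : ℝ) : ℂ)))‖ = 1 := by
      rw [← mul_neg, ← Complex.ofReal_neg, mul_comm I]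
      exact Complex.norm_exp_ofReal_mul_I _
    have e2 : ‖cexp (I * ((p.2 * AR.sq p.1 : ℝ) : ℂ))‖ = 1 := by
      rw [mul_comm I]
      exact Complex.norm_exp_ofReal_mul_I _
    rw [e1, e2, one_mul, one_mul]
    exact mul_le_mul_of_nonneg_left (hb _ _) (bas_nonneg _)
  have hL : EX (fa (aT a T)) X t = ((2 * π : ℝ) : ℂ)⁻¹ *
      ∫ x : ℝ × ℝ, ∫ κ in Icc (-(T / 2)) (T / 2), Φ x κ := by
    unfold EX fa aT
    rw [← integral_const_mul]
    refine integral_congr_ae (Filter.Eventually.of_forall fun x => ?_)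
    simp only [hΦ]
    rw [integral_const_mul, integral_const_mul]
    ring
  rw [hL, integral_integral_swap hint]
  congr 1
  refine integral_congr_ae (Filter.Eventually.of_forall fun κ => ?_)
  simp only [EX, bg]
  refine integral_congr_ae (Filter.Eventually.of_forall fun x => ?_)
  simp only [hΦ]
  have e : cexp (-(I * ((x.1 * X.1 + x.2 * X.2 + AR.sq x * (t - κ) : ℝ) : ℂ))) =
      cexp (-(I * ((x.1 * X.1 + x.2 * X.2 + AR.sq x * t : ℝ) : ℂ))) *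
        cexp (I * ((κ * AR.sq x : ℝ) : ℂ)) := by
    rw [← Complex.exp_add]
    congr 1
    push_cast
    ring
  rw [e]
  ring

/-- weighted Hoelder inequality -/
lemma holder_weight (r : ℝ) (K : Set ℝ) (y : ℝ → ℝ≥0∞) (hy : Measurable y) :
    (∫⁻ κ in K, y κ) ^ 4 ≤ (∫⁻ κ : ℝ, ENNReal.ofReal ((1 + ‖κ‖) ^ (-r))) ^ 3 *
      ∫⁻ κ in K, ENNReal.ofReal ((1 + ‖κ‖) ^ (3 * r)) * y κ ^ 4 := by
  have hpos : ∀ κ : ℝ, 0 < 1 + ‖κ‖ := fun κ => by positivity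
  have hpq : (4 / 3 : ℝ).HolderConjugate 4 := by
    rw [Real.holderConjugate_iff]
    norm_num
  have hmw : ∀ s : ℝ, Measurable fun κ : ℝ => ENNReal.ofReal ((1 + ‖κ‖) ^ s) := by
    intro s
    fun_prop
  have hH := ENNReal.lintegral_mul_le_Lp_mul_Lq (volume.restrict K) hpq
    (f := fun κ : ℝ => ENNReal.ofReal ((1 + ‖κ‖) ^ (-(3 * r / 4))))
    (g := fun κ : ℝ => ENNReal.ofReal ((1 + ‖κ‖) ^ (3 * r / 4)) * y κ)
    (hmw _).aemeasurable ((hmw _).mul hy).aemeasurable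
  have e1 : ∀ κ : ℝ, ((fun κ : ℝ => ENNReal.ofReal ((1 + ‖κ‖) ^ (-(3 * r / 4)))) *
      (fun κ : ℝ => ENNReal.ofReal ((1 + ‖κ‖) ^ (3 * r / 4)) * y κ)) κ = y κ := by
    intro κ
    simp only [Pi.mul_apply]
    rw [← mul_assoc, ← ENNReal.ofReal_mul (by positivity), ← Real.rpow_add (hpos κ)]
    simp
  have e2 : ∀ κ : ℝ, ENNReal.ofReal ((1 + ‖κ‖) ^ (-(3 * r / 4))) ^ (4 / 3 : ℝ) =
      ENNReal.ofReal ((1 + ‖κ‖) ^ (-r)) := by
    intro κ
    rw [ENNReal.ofReal_rpow_of_nonneg (by positivity) (by norm_num), ← Real.rpow_mul (hpos κ).le]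
    congr 2
    ring
  have e3 : ∀ κ : ℝ, (ENNReal.ofReal ((1 + ‖κ‖) ^ (3 * r / 4)) * y κ) ^ (4 : ℝ) =
      ENNReal.ofReal ((1 + ‖κ‖) ^ (3 * r)) * y κ ^ 4 := by
    intro κ
    rw [ENNReal.mul_rpow_of_nonneg _ _ (by norm_num),
      ENNReal.ofReal_rpow_of_nonneg (by positivity) (by norm_num), ← Real.rpow_mul (hpos κ).le]
    congr 1
    · congr 2
      ring
    · norm_cast
  simp only [e1, e2, e3] at hH
  have hle : ∫⁻ κ in K, ENNReal.ofReal ((1 + ‖κ‖) ^ (-r)) ≤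
      ∫⁻ κ : ℝ, ENNReal.ofReal ((1 + ‖κ‖) ^ (-r)) := setLIntegral_le_lintegral _ _
  calc (∫⁻ κ in K, y κ) ^ 4
      ≤ ((∫⁻ κ in K, ENNReal.ofReal ((1 + ‖κ‖) ^ (-r))) ^ (1 / (4 / 3) : ℝ) *
        (∫⁻ κ in K, ENNReal.ofReal ((1 + ‖κ‖) ^ (3 * r)) * y κ ^ 4) ^ (1 / 4 : ℝ)) ^ 4 := by
        gcongr
    _ = (∫⁻ κ in K, ENNReal.ofReal ((1 + ‖κ‖) ^ (-r))) ^ 3 *
        ∫⁻ κ in K, ENNReal.ofReal ((1 + ‖κ‖) ^ (3 * r)) * y κ ^ 4 := by
        rw [mul_pow, ← ENNReal.rpow_natCast, ← ENNReal.rpow_natCast (_ ^ (1 / 4 : ℝ)),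
          ← ENNReal.rpow_mul, ← ENNReal.rpow_mul]
        have a1 : (1 / (4 / 3) : ℝ) * ((4 : ℕ) : ℝ) = ((3 : ℕ) : ℝ) := by norm_num
        have a2 : (1 / 4 : ℝ) * ((4 : ℕ) : ℝ) = 1 := by norm_num
        rw [a1, a2, ENNReal.rpow_natCast, ENNReal.rpow_one]
    _ ≤ _ := by gcongr

theorem low_of (hF : AllBound) (hG : FourierFacts) : LowL4 := by
  intro δ hδ hδ2
  obtain ⟨C1, hC1⟩ := hF (δ / 2) (by positivity) (by linarith)
  set r : ℝ := 1 + δ / 8 with hr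
  have hJ : (∫⁻ κ : ℝ, ENNReal.ofReal ((1 + ‖κ‖) ^ (-r))) < ∞ :=
    finite_integral_one_add_norm (μ := volume) (by simp [hr]; positivity)
  set J : ℝ≥0∞ := ∫⁻ κ : ℝ, ENNReal.ofReal ((1 + ‖κ‖) ^ (-r)) with hJdef
  refine ⟨324 * C1 * J.toNNReal ^ 4, ?_⟩
  intro a M B ha hMB T hT t hTt
  obtain ⟨hm, hb, -⟩ := hG a M ha
  have hms := measurable_sq
  have hmb := measurable_bas
  have hma := measurable_ang
  have hT0 : 0 < T := by linarith
  set K : Set ℝ := Icc (-(T / 2)) (T / 2) with hK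
  have hwpos : ∀ κ : ℝ, 0 < 1 + |κ| := fun κ => by positivity
  -- the norm bound
  have hb' : ∀ κ θ, ‖ah a κ θ‖ₑ ≤ ((B * Real.toNNReal (3 / (1 + |κ|)) : ℝ≥0) : ℝ≥0∞) := by
    intro κ θ
    refine (hb κ θ).trans ?_
    rw [ENNReal.coe_mul]
    show (M θ : ℝ≥0∞) * ENNReal.ofReal (3 / (1 + |κ|)) ≤ B * ENNReal.ofReal (3 / (1 + |κ|))
    gcongr
    exact hMB θ
  have hb'' : ∀ κ θ, ‖ah a κ θ‖ ≤ (B : ℝ) * 3 := by
    intro κ θ
    have h := hb' κ θ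
    rw [enorm_le_coe] at h
    have h2 : ‖ah a κ θ‖ ≤ (B : ℝ) * (3 / (1 + |κ|)) := by
      have h3 : ((B * Real.toNNReal (3 / (1 + |κ|)) : ℝ≥0) : ℝ) = B * (3 / (1 + |κ|)) := by
        rw [NNReal.coe_mul, Real.coe_toNNReal _ (by positivity)]
      rw [← h3]
      exact_mod_cast h
    refine h2.trans ?_
    gcongr
    rw [div_le_iff₀ (hwpos κ)]
    nlinarith [abs_nonneg κ]
  -- joint measurability
  obtain ⟨Y, hY⟩ : ∃ Y : (ℝ × ℝ) → ℝ → ℂ, ∀ X κ, Y X κ = EX (bg (ah a κ)) X (t - κ) :=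
    ⟨_, fun _ _ => rfl⟩
  have hmY : Measurable (Function.uncurry Y) := by
    have h1 : StronglyMeasurable (fun q : ((ℝ × ℝ) × ℝ) × (ℝ × ℝ) =>
        cexp (-(I * ((q.2.1 * q.1.1.1 + q.2.2 * q.1.1.2 + AR.sq q.2 * (t - q.1.2) : ℝ) : ℂ))) *
          ((bas q.2 : ℂ) * ah a q.1.2 (ang q.2))) := by
      refine Measurable.stronglyMeasurable ?_
      have h2 : Measurable fun q : ((ℝ × ℝ) × ℝ) × (ℝ × ℝ) => ah a q.1.2 (ang q.2) :=
        hm.comp ((measurable_snd.comp measurable_fst).prodMk (hma.comp measurable_snd))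
      have h3 : Measurable fun q : ((ℝ × ℝ) × ℝ) × (ℝ × ℝ) => AR.sq q.2 := hms.comp measurable_snd
      have h4 : Measurable fun q : ((ℝ × ℝ) × ℝ) × (ℝ × ℝ) => bas q.2 := hmb.comp measurable_snd
      fun_prop
    have h5 := (h1.integral_prod_right' (ν := (volume : Measure (ℝ × ℝ)))).measurable
    have h6 : Function.uncurry Y = fun p : (ℝ × ℝ) × ℝ => ∫ x : ℝ × ℝ,
        cexp (-(I * ((x.1 * p.1.1 + x.2 * p.1.2 + AR.sq x * (t - p.2) : ℝ) : ℂ))) *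
          ((bas x : ℂ) * ah a p.2 (ang x)) := by
      funext p
      exact hY p.1 p.2
    rw [h6]
    exact h5
  have hmYe : Measurable (Function.uncurry fun X κ => ‖Y X κ‖ₑ) := hmY.enorm
  -- pointwise bound
  have hpt : ∀ X : ℝ × ℝ, ‖EX (fa (aT a T)) X t‖ₑ ^ 4 ≤
      J ^ 3 * ∫⁻ κ in K, ENNReal.ofReal ((1 + ‖κ‖) ^ (3 * r)) * ‖Y X κ‖ₑ ^ 4 := by
    intro X
    have h1 : ‖EX (fa (aT a T)) X t‖ₑ ≤ ∫⁻ κ in K, ‖Y X κ‖ₑ := by
      rw [EX_low a ((B : ℝ) * 3) T hm hb'' X t, enorm_mul]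
      simp only [← hY]
      calc ‖((2 * π : ℝ) : ℂ)⁻¹‖ₑ * ‖∫ κ in K, Y X κ‖ₑ ≤ 1 * ∫⁻ κ in K, ‖Y X κ‖ₑ := by
            gcongr
            · rw [← ofReal_norm, norm_inv, Complex.norm_real,
                Real.norm_of_nonneg (by positivity)]
              refine ENNReal.ofReal_le_one.2 ?_
              have := Real.pi_gt_three
              exact inv_le_one_of_one_le₀ (by linarith)
            · exact enorm_integral_le_lintegral_enorm _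
        _ = _ := one_mul _
    have h2 : Measurable fun κ => ‖Y X κ‖ₑ := hmYe.comp measurable_prodMk_left
    calc ‖EX (fa (aT a T)) X t‖ₑ ^ 4 ≤ (∫⁻ κ in K, ‖Y X κ‖ₑ) ^ 4 := by gcongr
      _ ≤ _ := holder_weight r K _ h2
  -- the bound for fixed `κ`
  set I2 : ℝ≥0∞ := ∫⁻ θ in Ioo (-π) π, (M θ : ℝ≥0∞) ^ 2 with hI2
  have hκ : ∀ κ ∈ K, ENNReal.ofReal ((1 + ‖κ‖) ^ (3 * r)) * ∫⁻ X, ‖Y X κ‖ₑ ^ 4 ≤
      ENNReal.ofReal ((1 + ‖κ‖) ^ (-r)) * (324 * C1 * ENNReal.ofReal (T ^ (-2 + δ)) * B ^ 2 * I2) := by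
    intro κ hκ
    have hκT : |κ| ≤ T / 2 := abs_le.2 hκ
    have hmκ : Measurable (ah a κ) := hm.comp (measurable_const.prodMk measurable_id)
    have h1 := hC1 (ah a κ) (B * Real.toNNReal (3 / (1 + |κ|))) hmκ (hb' κ) (t - κ)
    simp only [← hY] at h1
    have h2 : ∫⁻ θ in Ioo (-π) π, ‖ah a κ θ‖ₑ ^ 2 ≤ ENNReal.ofReal (3 / (1 + |κ|)) ^ 2 * I2 := by
      rw [hI2, ← lintegral_const_mul _ (by have := ha.mM; fun_prop)]
      refine lintegral_mono fun θ => ?_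
      calc ‖ah a κ θ‖ₑ ^ 2 ≤ (M θ * ENNReal.ofReal (3 / (1 + |κ|))) ^ 2 := by
            gcongr
            exact hb κ θ
        _ = _ := by rw [mul_pow, mul_comm]
    have e0 : ((Real.toNNReal (3 / (1 + |κ|)) : ℝ≥0) : ℝ≥0∞) = ENNReal.ofReal (3 / (1 + |κ|)) := rfl
    rw [ENNReal.coe_mul, e0] at h1
    -- the real inequality
    have hreal : (1 + |κ|) ^ (3 * r) * ((1 + |t - κ|) ^ (-2 + δ / 2) *
        ((3 / (1 + |κ|)) ^ 2 * (3 / (1 + |κ|)) ^ 2)) ≤ (1 + |κ|) ^ (-r) * (324 * T ^ (-2 + δ)) := by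
      have hw := hwpos κ
      have a1 : (3 / (1 + |κ|)) ^ 2 * (3 / (1 + |κ|)) ^ 2 = 81 * (1 + |κ|) ^ (-4 : ℝ) := by
        rw [Real.rpow_neg hw.le]
        have : (1 + |κ|) ^ (4 : ℝ) = (1 + |κ|) ^ 4 := by norm_cast
        rw [this]
        field_simp
        norm_num
      have hsub : T / 2 ≤ |t - κ| := by
        have := abs_sub_abs_le_abs_sub t κ
        linarith
      have a2 : (1 + |t - κ|) ^ (-2 + δ / 2) ≤ (1 + T / 2) ^ (-2 + δ / 2) :=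
        Real.rpow_le_rpow_of_nonpos (by positivity) (by linarith) (by linarith)
      have a3 : (1 + |κ|) ^ (δ / 2) ≤ (1 + T / 2) ^ (δ / 2) :=
        Real.rpow_le_rpow hw.le (by linarith) (by positivity)
      have a4 : (1 + T / 2) ^ (-2 + δ) ≤ 4 * T ^ (-2 + δ) := by
        have h5 : (1 + T / 2) ^ (-2 + δ) ≤ (T / 2) ^ (-2 + δ) :=
          Real.rpow_le_rpow_of_nonpos (by positivity) (by linarith) (by linarith)
        refine h5.trans ?_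
        rw [Real.div_rpow hT0.le (by norm_num), div_eq_mul_inv, mul_comm, ← Real.rpow_neg (by norm_num)]
        gcongr
        calc (2 : ℝ) ^ (-(-2 + δ)) ≤ (2 : ℝ) ^ (2 : ℝ) :=
              Real.rpow_le_rpow_of_exponent_le (by norm_num) (by linarith)
          _ = 4 := by norm_num
      have a5 : (1 + |κ|) ^ (3 * r) * (1 + |κ|) ^ (-4 : ℝ) = (1 + |κ|) ^ (-r) * (1 + |κ|) ^ (δ / 2) := by
        rw [← Real.rpow_add hw, ← Real.rpow_add hw]
        congr 1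
        rw [hr]; ring
      calc (1 + |κ|) ^ (3 * r) * ((1 + |t - κ|) ^ (-2 + δ / 2) *
            ((3 / (1 + |κ|)) ^ 2 * (3 / (1 + |κ|)) ^ 2))
          = 81 * ((1 + |κ|) ^ (3 * r) * (1 + |κ|) ^ (-4 : ℝ)) * (1 + |t - κ|) ^ (-2 + δ / 2) := by
            rw [a1]; ring
        _ = 81 * ((1 + |κ|) ^ (-r) * (1 + |κ|) ^ (δ / 2)) * (1 + |t - κ|) ^ (-2 + δ / 2) := by
            rw [a5]
        _ ≤ 81 * ((1 + |κ|) ^ (-r) * (1 + T / 2) ^ (δ / 2)) * (1 + T / 2) ^ (-2 + δ / 2) := by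
            gcongr
        _ = 81 * (1 + |κ|) ^ (-r) * ((1 + T / 2) ^ (δ / 2) * (1 + T / 2) ^ (-2 + δ / 2)) := by ring
        _ = 81 * (1 + |κ|) ^ (-r) * (1 + T / 2) ^ (-2 + δ) := by
            rw [← Real.rpow_add (by positivity)]
            congr 2
            ring
        _ ≤ 81 * (1 + |κ|) ^ (-r) * (4 * T ^ (-2 + δ)) := by gcongr
        _ = _ := by ring
    calc ENNReal.ofReal ((1 + ‖κ‖) ^ (3 * r)) * ∫⁻ X, ‖Y X κ‖ₑ ^ 4
        ≤ ENNReal.ofReal ((1 + |κ|) ^ (3 * r)) * (C1 * ENNReal.ofReal ((1 + |t - κ|) ^ (-2 + δ / 2)) *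
          (B * ENNReal.ofReal (3 / (1 + |κ|))) ^ 2 * ∫⁻ θ in Ioo (-π) π, ‖ah a κ θ‖ₑ ^ 2) := by
          rw [Real.norm_eq_abs]
          gcongr
      _ ≤ ENNReal.ofReal ((1 + |κ|) ^ (3 * r)) * (C1 * ENNReal.ofReal ((1 + |t - κ|) ^ (-2 + δ / 2)) *
          (B * ENNReal.ofReal (3 / (1 + |κ|))) ^ 2 * (ENNReal.ofReal (3 / (1 + |κ|)) ^ 2 * I2)) := by
          gcongr
      _ = (ENNReal.ofReal ((1 + |κ|) ^ (3 * r)) * (ENNReal.ofReal ((1 + |t - κ|) ^ (-2 + δ / 2)) *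
          (ENNReal.ofReal (3 / (1 + |κ|)) ^ 2 * ENNReal.ofReal (3 / (1 + |κ|)) ^ 2))) *
            (C1 * B ^ 2 * I2) := by ring
      _ = ENNReal.ofReal ((1 + |κ|) ^ (3 * r) * ((1 + |t - κ|) ^ (-2 + δ / 2) *
          ((3 / (1 + |κ|)) ^ 2 * (3 / (1 + |κ|)) ^ 2))) * (C1 * B ^ 2 * I2) := by
          rw [ENNReal.ofReal_mul (by positivity), ENNReal.ofReal_mul (by positivity),
            ENNReal.ofReal_mul (by positivity), ENNReal.ofReal_pow (by positivity)]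
      _ ≤ ENNReal.ofReal ((1 + |κ|) ^ (-r) * (324 * T ^ (-2 + δ))) * (C1 * B ^ 2 * I2) := by
          gcongr
      _ = _ := by
          rw [Real.norm_eq_abs, ENNReal.ofReal_mul (by positivity),
            ENNReal.ofReal_mul (by norm_num)]
          have : ENNReal.ofReal 324 = 324 := by norm_num
          rw [this]
          ring
  calc ∫⁻ X : ℝ × ℝ, ‖EX (fa (aT a T)) X t‖ₑ ^ 4
      ≤ ∫⁻ X : ℝ × ℝ, J ^ 3 * ∫⁻ κ in K, ENNReal.ofReal ((1 + ‖κ‖) ^ (3 * r)) * ‖Y X κ‖ₑ ^ 4 :=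
        lintegral_mono hpt
    _ = J ^ 3 * ∫⁻ X : ℝ × ℝ, ∫⁻ κ in K, ENNReal.ofReal ((1 + ‖κ‖) ^ (3 * r)) * ‖Y X κ‖ₑ ^ 4 :=
        lintegral_const_mul' _ _ (ENNReal.pow_ne_top hJ.ne)
    _ = J ^ 3 * ∫⁻ κ in K, ∫⁻ X : ℝ × ℝ, ENNReal.ofReal ((1 + ‖κ‖) ^ (3 * r)) * ‖Y X κ‖ₑ ^ 4 := by
        rw [lintegral_lintegral_swap]
        refine Measurable.aemeasurable ?_
        show Measurable fun p : (ℝ × ℝ) × ℝ => ENNReal.ofReal ((1 + ‖p.2‖) ^ (3 * r)) * ‖Y p.1 p.2‖ₑ ^ 4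
        have h1 : Measurable fun p : (ℝ × ℝ) × ℝ => ‖Y p.1 p.2‖ₑ := hmYe
        fun_prop
    _ = J ^ 3 * ∫⁻ κ in K, ENNReal.ofReal ((1 + ‖κ‖) ^ (3 * r)) * ∫⁻ X : ℝ × ℝ, ‖Y X κ‖ₑ ^ 4 := by
        congr 1
        refine lintegral_congr fun κ => ?_
        rw [lintegral_const_mul' _ _ ENNReal.ofReal_ne_top]
    _ ≤ J ^ 3 * ∫⁻ κ in K, ENNReal.ofReal ((1 + ‖κ‖) ^ (-r)) *
          (324 * C1 * ENNReal.ofReal (T ^ (-2 + δ)) * B ^ 2 * I2) := by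
        gcongr 1
        exact setLIntegral_mono' measurableSet_Icc hκ
    _ = J ^ 3 * ((∫⁻ κ in K, ENNReal.ofReal ((1 + ‖κ‖) ^ (-r))) *
          (324 * C1 * ENNReal.ofReal (T ^ (-2 + δ)) * B ^ 2 * I2)) := by
        rw [lintegral_mul_const]
        fun_prop
    _ ≤ J ^ 3 * (J * (324 * C1 * ENNReal.ofReal (T ^ (-2 + δ)) * B ^ 2 * I2)) := by
        gcongr
        exact setLIntegral_le_lintegral _ _
    _ = _ := by
        have hJc : ((J.toNNReal : ℝ≥0) : ℝ≥0∞) = J := ENNReal.coe_toNNReal hJ.ne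
        push_cast
        rw [hJc]
        ring

end Pool.Agent.TH370.VR
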