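import Mathlib
import Pool.Agent.TH407.AR.Defs
set_option autoImplicit false

namespace Pool.Agent.TH370.VR

open Pool.Agent.TH407 Pool.Agent.TH407.AR
open MeasureTheory Set Complex
open scoped ENNReal NNReal Real

/-- clamping to `[1/4, 1]` -/
noncomputable def clp (s : ℝ) : ℝ := max (1 / 4) (min s 1)

/-- `1 / (√s e^{-s})`, clamped -/
noncomputable def bet (s : ℝ) : ℝ := (√(clp s) * Real.exp (-(clp s)))⁻¹

lemma clp_mem (s : ℝ) : clp s ∈ Icc (1 / 4 : ℝ) 1 := by
  unfold clp
  exact ⟨le_max_left _ _, max_le (by norm_num) (min_le_right _ _)⟩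

lemma clp_eq {s : ℝ} (hs : s ∈ Ioc (1 / 4 : ℝ) 1) : clp s = s := by
  unfold clp
  rw [min_eq_left hs.2, max_eq_right hs.1.le]

lemma clp_lip (x y : ℝ) : |clp x - clp y| ≤ |x - y| := by
  unfold clp
  calc |max (1 / 4) (min x 1) - max (1 / 4) (min y 1)|
      ≤ max |(1 / 4 : ℝ) - 1 / 4| |min x 1 - min y 1| := abs_max_sub_max_le_max _ _ _ _
    _ ≤ |min x 1 - min y 1| := by simp
    _ ≤ max |x - y| |(1 : ℝ) - 1| := abs_min_sub_min_le_max _ _ _ _
    _ ≤ |x - y| := by simp

lemma measurable_bet : Measurable bet := by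
  unfold bet clp
  fun_prop

lemma half_le_sqrt {u : ℝ} (hu : 1 / 4 ≤ u) : 1 / 2 ≤ √u := by
  apply Real.le_sqrt_of_sq_le
  norm_num
  linarith

lemma exp_lip {u v : ℝ} (hu : u ≤ 1) (hv : v ≤ 1) : |Real.exp u - Real.exp v| ≤ Real.exp 1 * |u - v| := by
  wlog h : v ≤ u generalizing u v with H
  · rw [abs_sub_comm, abs_sub_comm u v]
    exact H hv hu (le_of_not_ge h)
  rw [abs_of_nonneg (sub_nonneg.2 (Real.exp_le_exp.2 h)), abs_of_nonneg (sub_nonneg.2 h)]
  have h1 : Real.exp v = Real.exp u * Real.exp (v - u) := by rw [← Real.exp_add]; ring_nf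
  have h2 := Real.add_one_le_exp (v - u)
  have h3 : Real.exp u ≤ Real.exp 1 := Real.exp_le_exp.2 hu
  calc Real.exp u - Real.exp v = Real.exp u * (1 - Real.exp (v - u)) := by rw [h1]; ring
    _ ≤ Real.exp u * (u - v) := mul_le_mul_of_nonneg_left (by linarith) (Real.exp_pos u).le
    _ ≤ Real.exp 1 * (u - v) := by
      have : 0 ≤ u - v := sub_nonneg.2 h
      gcongr

lemma bet_aux {u v : ℝ} (hu : u ∈ Icc (1 / 4 : ℝ) 1) (hv : v ∈ Icc (1 / 4 : ℝ) 1) :
    |(√u * Real.exp (-u))⁻¹ - (√v * Real.exp (-v))⁻¹| ≤ 17 * |u - v| := by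
  have hp := half_le_sqrt hu.1
  have hr := half_le_sqrt hv.1
  set p := √u with hpdef
  set r := √v with hrdef
  have hp0 : 0 < p := by linarith
  have hr0 : 0 < r := by linarith
  have hpu : p ^ 2 = u := Real.sq_sqrt (by linarith [hu.1])
  have hrv : r ^ 2 = v := Real.sq_sqrt (by linarith [hv.1])
  have he : Real.exp 1 ≤ 2.72 := by linarith [Real.exp_one_lt_d9]
  have e1 : (p * Real.exp (-u))⁻¹ - (r * Real.exp (-v))⁻¹ =
      (Real.exp u - Real.exp v) * p⁻¹ + Real.exp v * ((r - p) * (p⁻¹ * r⁻¹)) := by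
    rw [Real.exp_neg, Real.exp_neg]
    have := Real.exp_pos u
    have := Real.exp_pos v
    field_simp
    ring
  have h1 : |r - p| ≤ |u - v| := by
    have : |u - v| = |r - p| * (r + p) := by
      rw [← hpu, ← hrv, abs_sub_comm]
      rw [show r ^ 2 - p ^ 2 = (r - p) * (r + p) by ring, abs_mul, abs_of_pos (by linarith : 0 < r + p)]
    rw [this]
    calc |r - p| = |r - p| * 1 := (mul_one _).symm
      _ ≤ _ := by gcongr; linarith
  have h2 : p⁻¹ ≤ 2 := by
    rw [inv_le_comm₀ hp0 (by norm_num)]; linarith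
  have h3 : r⁻¹ ≤ 2 := by
    rw [inv_le_comm₀ hr0 (by norm_num)]; linarith
  have h4 := exp_lip hu.2 hv.2
  have h5 : Real.exp v ≤ Real.exp 1 := Real.exp_le_exp.2 hv.2
  rw [e1]
  calc |(Real.exp u - Real.exp v) * p⁻¹ + Real.exp v * ((r - p) * (p⁻¹ * r⁻¹))|
      ≤ |(Real.exp u - Real.exp v) * p⁻¹| + |Real.exp v * ((r - p) * (p⁻¹ * r⁻¹))| := abs_add_le _ _
    _ = |Real.exp u - Real.exp v| * p⁻¹ + Real.exp v * (|r - p| * (p⁻¹ * r⁻¹)) := by
      rw [abs_mul, abs_mul, abs_mul, abs_of_pos (inv_pos.2 hp0), abs_of_pos (Real.exp_pos v),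
        abs_of_pos (mul_pos (inv_pos.2 hp0) (inv_pos.2 hr0))]
    _ ≤ (Real.exp 1 * |u - v|) * 2 + Real.exp 1 * (|u - v| * (2 * 2)) := by
      gcongr
    _ = 6 * Real.exp 1 * |u - v| := by ring
    _ ≤ 17 * |u - v| := by
      gcongr
      linarith

lemma bet_lip (x y : ℝ) : |bet x - bet y| ≤ 17 * |x - y| := by
  unfold bet
  refine (bet_aux (clp_mem x) (clp_mem y)).trans ?_
  exact mul_le_mul_of_nonneg_left (clp_lip x y) (by norm_num)

lemma bet_nonneg (x : ℝ) : 0 ≤ bet x := by unfold bet; positivity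

lemma bet_le (x : ℝ) : bet x ≤ 6 := by
  unfold bet
  have hm := clp_mem x
  have hp := half_le_sqrt hm.1
  have he : Real.exp 1 ≤ 2.72 := by linarith [Real.exp_one_lt_d9]
  have h5 : Real.exp (clp x) ≤ Real.exp 1 := Real.exp_le_exp.2 hm.2
  rw [mul_inv, Real.exp_neg, inv_inv]
  have h2 : (√(clp x))⁻¹ ≤ 2 := by
    rw [inv_le_comm₀ (by linarith) (by norm_num)]; linarith
  calc (√(clp x))⁻¹ * Real.exp (clp x) ≤ 2 * Real.exp 1 := by gcongr
    _ ≤ 6 := by linarith

/-- a truncated function of bounded variation has bounded variation -/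
lemma eVariationOn_trunc {φ : ℝ → ℂ} {a b : ℝ} {M V : ℝ≥0}
    (hM : ∀ s ∈ Ioc a b, ‖φ s‖ₑ ≤ M) (hV : eVariationOn φ (Ioc a b) ≤ V) :
    eVariationOn (fun s => if s ∈ Ioc a b then φ s else 0) univ ≤ ((V + 2 * M : ℝ≥0) : ℝ≥0∞) := by
  classical
  set ψ : ℝ → ℂ := fun s => if s ∈ Ioc a b then φ s else 0 with hψ
  -- the dominating monotone function
  set v : ℝ → ℝ≥0∞ := fun x => eVariationOn φ (Ioc a b ∩ Iic x) with hv
  have hvle : ∀ x, v x ≤ V := fun x => (eVariationOn.mono φ inter_subset_left).trans hV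
  set g1 : ℝ → ℝ≥0∞ := fun x => if a < x then M else 0 with hg1
  set g2 : ℝ → ℝ≥0∞ := fun x => if b < x then M else 0 with hg2
  set F : ℝ → ℝ≥0∞ := fun x => v x + g1 x + g2 x with hF
  have hvmono : Monotone v := fun x y hxy => eVariationOn.mono φ
    (inter_subset_inter_right _ (Iic_subset_Iic.2 hxy))
  have hg1mono : Monotone g1 := by
    intro x y hxy
    simp only [hg1]
    split_ifs with h1 h2
    · exact le_rfl
    · exact absurd (h1.trans_le hxy) h2
    · exact bot_le
    · exact le_rfl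
  have hg2mono : Monotone g2 := by
    intro x y hxy
    simp only [hg2]
    split_ifs with h1 h2
    · exact le_rfl
    · exact absurd (h1.trans_le hxy) h2
    · exact bot_le
    · exact le_rfl
  have hstep : ∀ x y, x ≤ y → edist (ψ y) (ψ x) + F x ≤ F y := by
    intro x y hxy
    have hz : ψ y = 0 ∧ ψ x = 0 → edist (ψ y) (ψ x) + F x ≤ F y := by
      rintro ⟨h1, h2⟩
      rw [h1, h2, edist_self, zero_add]
      exact add_le_add (add_le_add (hvmono hxy) (hg1mono hxy)) (hg2mono hxy)
    rcases le_or_gt x a with hxa | hxa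
    · have hx0 : ψ x = 0 := by
        simp only [hψ]; rw [if_neg]; exact fun h => absurd h.1 (not_lt.2 hxa)
      by_cases hy : y ∈ Ioc a b
      · have hy1 : ψ y = φ y := by simp only [hψ]; rw [if_pos hy]
        have e1 : g1 y = M := by simp only [hg1]; rw [if_pos hy.1]
        have e2 : g1 x = 0 := by simp only [hg1]; rw [if_neg (not_lt.2 hxa)]
        rw [hx0, hy1, edist_zero_right]
        simp only [hF]
        rw [e1, e2, add_zero]
        calc ‖φ y‖ₑ + (v x + g2 x) ≤ M + (v y + g2 y) := by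
              gcongr
              · exact hM y hy
              · exact hvmono hxy
              · exact hg2mono hxy
          _ = _ := by ring
      · refine hz ⟨?_, hx0⟩
        simp only [hψ]; rw [if_neg hy]
    · rcases le_or_gt x b with hxb | hxb
      · have hx : x ∈ Ioc a b := ⟨hxa, hxb⟩
        have hx1 : ψ x = φ x := by simp only [hψ]; rw [if_pos hx]
        rcases le_or_gt y b with hyb | hyb
        · have hy : y ∈ Ioc a b := ⟨hxa.trans_le hxy, hyb⟩
          have hy1 : ψ y = φ y := by simp only [hψ]; rw [if_pos hy]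
          have h1 : edist (φ y) (φ x) ≤ eVariationOn φ ({x, y} : Set ℝ) :=
            eVariationOn.edist_le φ (by simp) (by simp)
          have h2 : eVariationOn φ (Ioc a b ∩ Iic x) + eVariationOn φ ({x, y} : Set ℝ) ≤
              eVariationOn φ ((Ioc a b ∩ Iic x) ∪ {x, y}) := by
            refine eVariationOn.add_le_union φ ?_
            rintro z ⟨-, hz2⟩ w hw
            rcases hw with hw | hw
            · rw [hw]; exact hz2
            · rw [mem_singleton_iff.1 hw]; exact le_trans hz2 hxy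
          have h3 : (Ioc a b ∩ Iic x) ∪ {x, y} ⊆ Ioc a b ∩ Iic y := by
            rintro z (⟨hz1, hz2⟩ | hz)
            · exact ⟨hz1, le_trans hz2 hxy⟩
            · rcases hz with hz | hz
              · rw [hz]; exact ⟨hx, hxy⟩
              · rw [mem_singleton_iff.1 hz]; exact ⟨hy, le_refl y⟩
          have h4 : edist (φ y) (φ x) + v x ≤ v y := by
            calc edist (φ y) (φ x) + v x ≤ eVariationOn φ ({x, y} : Set ℝ) + v x := by gcongr
              _ = v x + eVariationOn φ ({x, y} : Set ℝ) := add_comm _ _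
              _ ≤ _ := h2.trans (eVariationOn.mono φ h3)
          rw [hx1, hy1]
          calc edist (φ y) (φ x) + F x = (edist (φ y) (φ x) + v x) + g1 x + g2 x := by
                simp only [hF]; ring
            _ ≤ v y + g1 y + g2 y := by
                gcongr
                · exact hg1mono hxy
                · exact hg2mono hxy
        · have hy1 : ψ y = 0 := by
            simp only [hψ]; rw [if_neg]; exact fun h => absurd h.2 (not_le.2 hyb)
          have e1 : g2 y = M := by simp only [hg2]; rw [if_pos hyb]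
          have e2 : g2 x = 0 := by simp only [hg2]; rw [if_neg (not_lt.2 hxb)]
          rw [hx1, hy1, edist_comm, edist_zero_right]
          simp only [hF]
          rw [e1, e2, add_zero]
          calc ‖φ x‖ₑ + (v x + g1 x) ≤ M + (v y + g1 y) := by
                gcongr
                · exact hM x hx
                · exact hvmono hxy
                · exact hg1mono hxy
            _ = _ := by ring
      · refine hz ⟨?_, ?_⟩
        · simp only [hψ]; rw [if_neg]; exact fun h => absurd h.2 (not_le.2 (hxb.trans_le hxy))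
        · simp only [hψ]; rw [if_neg]; exact fun h => absurd h.2 (not_le.2 hxb)
  have hFle : ∀ x, F x ≤ ((V + 2 * M : ℝ≥0) : ℝ≥0∞) := by
    intro x
    have h1 : g1 x ≤ M := by simp only [hg1]; split_ifs <;> simp
    have h2 : g2 x ≤ M := by simp only [hg2]; split_ifs <;> simp
    calc F x ≤ V + M + M := add_le_add (add_le_add (hvle x) h1) h2
      _ = _ := by push_cast; ring
  refine iSup_le fun p => ?_
  obtain ⟨n, u, hu, -⟩ := p
  show ∑ i ∈ Finset.range n, edist (ψ (u (i + 1))) (ψ (u i)) ≤ _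
  have hsum : ∀ n, ∑ i ∈ Finset.range n, edist (ψ (u (i + 1))) (ψ (u i)) + F (u 0) ≤ F (u n) := by
    intro n
    induction n with
    | zero => simp
    | succ n ih =>
      rw [Finset.sum_range_succ]
      calc ∑ i ∈ Finset.range n, edist (ψ (u (i + 1))) (ψ (u i)) + edist (ψ (u (n + 1))) (ψ (u n)) +
            F (u 0) = edist (ψ (u (n + 1))) (ψ (u n)) +
              (∑ i ∈ Finset.range n, edist (ψ (u (i + 1))) (ψ (u i)) + F (u 0)) := by ring
        _ ≤ edist (ψ (u (n + 1))) (ψ (u n)) + F (u n) := by gcongr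
        _ ≤ F (u (n + 1)) := hstep _ _ (hu (Nat.le_succ n))
  calc ∑ i ∈ Finset.range n, edist (ψ (u (i + 1))) (ψ (u i))
      ≤ ∑ i ∈ Finset.range n, edist (ψ (u (i + 1))) (ψ (u i)) + F (u 0) := le_self_add
    _ ≤ F (u n) := hsum n
    _ ≤ _ := hFle _

/-- the truncated radial function -/
noncomputable def psi (f : ℝ × ℝ → ℂ) (θ s : ℝ) : ℂ :=
  open Classical in if s ∈ Ioc (1 / 4 : ℝ) 1 then f (pol (√s) θ) else 0

/-- the profile -/
noncomputable def aa (f : ℝ × ℝ → ℂ) (s θ : ℝ) : ℂ :=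
  open Classical in if θ ∈ Ioo (-π) π then psi f θ s * (bet s : ℂ) else 0

lemma sqrt_mem {s : ℝ} (hs : s ∈ Ioc (1 / 4 : ℝ) 1) : √s ∈ Ioc (1 / 2 : ℝ) 1 := by
  constructor
  · apply Real.lt_sqrt_of_sq_lt
    norm_num
    linarith [hs.1]
  · exact Real.sqrt_le_one.2 hs.2

lemma measurable_aa {f : ℝ × ℝ → ℂ} (hf : Measurable f) : Measurable (Function.uncurry (aa f)) := by
  have h1 : Measurable fun p : ℝ × ℝ => f (pol (√p.1) p.2) := by
    refine hf.comp ?_
    unfold pol
    fun_prop
  have h2 : Measurable fun p : ℝ × ℝ => bet p.1 := measurable_bet.comp measurable_fst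
  show Measurable fun p : ℝ × ℝ => aa f p.1 p.2
  unfold aa psi
  refine Measurable.ite (measurable_snd measurableSet_Ioo) ?_ measurable_const
  refine Measurable.mul ?_ (by fun_prop)
  exact Measurable.ite (measurable_fst measurableSet_Ioc) h1 measurable_const

lemma measurable_psi {f : ℝ × ℝ → ℂ} (hf : Measurable f) (θ : ℝ) : Measurable (psi f θ) := by
  have h1 : Measurable fun s : ℝ => f (pol (√s) θ) := by
    refine hf.comp ?_
    unfold pol
    fun_prop
  show Measurable fun s => psi f θ s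
  unfold psi
  exact Measurable.ite measurableSet_Ioc h1 measurable_const

lemma aa_adm (hV : VarMod) {f : ℝ × ℝ → ℂ} {M : ℝ → ℝ≥0} (hf : Measurable f) (hM : Measurable M)
    (hbd : ∀ θ ∈ Ioo (-π) π, ∀ r ∈ Ioc (1 / 2 : ℝ) 1, ‖f (pol r θ)‖ₑ ≤ M θ)
    (hvar : ∀ θ ∈ Ioo (-π) π, eVariationOn (fun r => f (pol r θ)) (Ioc (1 / 2) 1) ≤ M θ) :
    Adm (aa f) (fun θ => 35 * M θ) := by
  have hpsi : ∀ θ ∈ Ioo (-π) π, ∀ s, ‖psi f θ s‖ₑ ≤ M θ := by
    intro θ hθ s
    unfold psi
    split_ifs with h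
    · exact hbd θ hθ _ (sqrt_mem h)
    · simp
  have hbet : ∀ s, ‖(bet s : ℂ)‖ₑ ≤ 6 := by
    intro s
    rw [← ofReal_norm, Complex.norm_real, Real.norm_of_nonneg (bet_nonneg s)]
    calc ENNReal.ofReal (bet s) ≤ ENNReal.ofReal 6 := ENNReal.ofReal_le_ofReal (bet_le s)
      _ = 6 := by norm_num
  refine ⟨measurable_aa hf, by fun_prop, ?_, ?_, ?_⟩
  · intro s θ hs
    unfold aa psi
    split_ifs with h1 h2
    · exact absurd ⟨by linarith [h2.1], h2.2⟩ hs
    · simp
    · rfl
  · intro s θ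
    unfold aa
    split_ifs with h1
    · rw [enorm_mul]
      calc ‖psi f θ s‖ₑ * ‖(bet s : ℂ)‖ₑ ≤ M θ * 6 := by
            gcongr
            · exact hpsi θ h1 s
            · exact hbet s
        _ ≤ M θ * 35 := by gcongr; norm_num
        _ = _ := by push_cast; ring
    · simp
  · intro h θ
    by_cases hθ : θ ∈ Ioo (-π) π
    · have hvψ : eVariationOn (psi f θ) univ ≤ ((M θ + 2 * M θ : ℝ≥0) : ℝ≥0∞) := by
        have h1 : eVariationOn (fun s => f (pol (√s) θ)) (Ioc (1 / 4) 1) ≤ M θ := by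
          refine le_trans ?_ (hvar θ hθ)
          exact eVariationOn.comp_le_of_monotoneOn (fun r => f (pol r θ)) (fun s => √s)
            (fun x _ y _ hxy => Real.sqrt_le_sqrt hxy) (fun s hs => sqrt_mem hs)
        exact eVariationOn_trunc (fun s hs => hbd θ hθ _ (sqrt_mem hs)) h1
      have h1 := hV (psi f θ) _ (measurable_psi hf θ) hvψ h
      have hpt : ∀ s, ‖aa f (s + h) θ - aa f s θ‖ₑ ≤ ‖psi f θ (s + h) - psi f θ s‖ₑ * 6 +
          ‖psi f θ s‖ₑ * ENNReal.ofReal (17 * |h|) := by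
        intro s
        have e : aa f (s + h) θ - aa f s θ = (psi f θ (s + h) - psi f θ s) * (bet (s + h) : ℂ) +
            psi f θ s * ((bet (s + h) - bet s : ℝ) : ℂ) := by
          unfold aa
          rw [if_pos hθ, if_pos hθ]
          push_cast
          ring
        rw [e]
        calc ‖(psi f θ (s + h) - psi f θ s) * (bet (s + h) : ℂ) +
            psi f θ s * ((bet (s + h) - bet s : ℝ) : ℂ)‖ₑ
            ≤ ‖(psi f θ (s + h) - psi f θ s) * (bet (s + h) : ℂ)‖ₑ +
              ‖psi f θ s * ((bet (s + h) - bet s : ℝ) : ℂ)‖ₑ := enorm_add_le _ _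
          _ = ‖psi f θ (s + h) - psi f θ s‖ₑ * ‖(bet (s + h) : ℂ)‖ₑ +
              ‖psi f θ s‖ₑ * ‖((bet (s + h) - bet s : ℝ) : ℂ)‖ₑ := by rw [enorm_mul, enorm_mul]
          _ ≤ _ := by
            gcongr
            · exact hbet _
            · rw [← ofReal_norm, Complex.norm_real, Real.norm_eq_abs]
              refine ENNReal.ofReal_le_ofReal ?_
              have := bet_lip (s + h) s
              simpa using this
      have hψint : ∫⁻ s, ‖psi f θ s‖ₑ ≤ M θ := by
        have h2 : ∀ s, ‖psi f θ s‖ₑ ≤ (Ioc (1 / 4 : ℝ) 1).indicator (fun _ => (M θ : ℝ≥0∞)) s := by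
          intro s
          by_cases hs : s ∈ Ioc (1 / 4 : ℝ) 1
          · rw [indicator_of_mem hs]; exact hpsi θ hθ s
          · rw [indicator_of_notMem hs]
            unfold psi
            rw [if_neg hs]
            simp
        calc ∫⁻ s, ‖psi f θ s‖ₑ ≤ ∫⁻ s, (Ioc (1 / 4 : ℝ) 1).indicator (fun _ => (M θ : ℝ≥0∞)) s :=
              lintegral_mono h2
          _ = M θ * volume (Ioc (1 / 4 : ℝ) 1) := by
              rw [lintegral_indicator measurableSet_Ioc, setLIntegral_const]
          _ ≤ M θ * 1 := by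
              gcongr
              rw [Real.volume_Ioc]
              refine ENNReal.ofReal_le_one.2 (by norm_num)
          _ = _ := mul_one _
      calc ∫⁻ s, ‖aa f (s + h) θ - aa f s θ‖ₑ
          ≤ ∫⁻ s, (‖psi f θ (s + h) - psi f θ s‖ₑ * 6 +
            ‖psi f θ s‖ₑ * ENNReal.ofReal (17 * |h|)) := lintegral_mono hpt
        _ = (∫⁻ s, ‖psi f θ (s + h) - psi f θ s‖ₑ) * 6 +
            (∫⁻ s, ‖psi f θ s‖ₑ) * ENNReal.ofReal (17 * |h|) := by
            have hm := measurable_psi hf θ
            rw [lintegral_add_right _ (by fun_prop), lintegral_mul_const' _ _ (by norm_num),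
              lintegral_mul_const' _ _ ENNReal.ofReal_ne_top]
        _ ≤ ((M θ + 2 * M θ : ℝ≥0) : ℝ≥0∞) * ENNReal.ofReal |h| * 6 +
            M θ * ENNReal.ofReal (17 * |h|) := by gcongr
        _ = _ := by
            rw [ENNReal.ofReal_mul (by norm_num)]
            have : ENNReal.ofReal 17 = 17 := by norm_num
            rw [this]
            push_cast
            ring
    · have h0 : ∀ s, aa f s θ = 0 := by
        intro s
        unfold aa
        rw [if_neg hθ]
      simp [h0]

lemma fa_aa {f : ℝ × ℝ → ℂ} (h0 : ∀ x, ¬ (1 / 4 < AR.sq x ∧ AR.sq x ≤ 1) → f x = 0) {x : ℝ × ℝ}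
    (hx : x ∈ polarCoord.source) : fa (aa f) x = f x := by
  have hang : ang x ∈ Ioo (-π) π := by
    have h := polarCoord.map_source hx
    rw [polarCoord_target] at h
    exact h.2
  unfold fa aa
  rw [if_pos hang]
  unfold psi
  by_cases hs : AR.sq x ∈ Ioc (1 / 4 : ℝ) 1
  · rw [if_pos hs]
    have h1 : pol (√(AR.sq x)) (ang x) = x := by
      have h := polarCoord.left_inv hx
      exact h
    rw [h1]
    unfold bas bet
    rw [clp_eq hs]
    have hp : 0 < √(AR.sq x) * Real.exp (-AR.sq x) := by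
      have : 0 < AR.sq x := by linarith [hs.1]
      positivity
    have hne : ((√(AR.sq x) * Real.exp (-AR.sq x) : ℝ) : ℂ) ≠ 0 := by
      exact_mod_cast hp.ne'
    rw [Complex.ofReal_inv, mul_comm (f x), ← mul_assoc, mul_inv_cancel₀ hne, one_mul]
  · rw [if_neg hs, h0 x hs]
    simp

theorem shell_of (hS : StrongBound) (hV : VarMod) : ShellBound := by
  intro q hq
  obtain ⟨C, hC⟩ := hS q hq
  refine ⟨C * 35 ^ q, ?_⟩
  intro f M hf hM h0 hbd hvar
  have hadm := aa_adm hV hf hM hbd hvar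
  have h1 := hC (aa f) (fun θ => 35 * M θ) hadm
  have hae : fa (aa f) =ᵐ[volume] f := by
    have h2 : ∀ᵐ x : ℝ × ℝ, x ∈ polarCoord.source := by
      have h3 := polarCoord_source_ae_eq_univ
      filter_upwards [h3] with x hx
      have : polarCoord.source x ↔ (univ : Set (ℝ × ℝ)) x := by
        rw [hx]
      exact this.2 trivial
    filter_upwards [h2] with x hx
    exact fa_aa h0 hx
  have hEX : ∀ X t, EX f X t = EX (fa (aa f)) X t := by
    intro X t
    unfold EX
    refine integral_congr_ae ?_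
    filter_upwards [hae] with x hx
    rw [hx]
  simp only [hEX]
  refine h1.trans ?_
  have h4 : ∀ θ, ((35 * M θ : ℝ≥0) : ℝ≥0∞) ^ q = ((35 ^ q : ℝ≥0) : ℝ≥0∞) * (M θ : ℝ≥0∞) ^ q := by
    intro θ
    rw [ENNReal.coe_mul, ENNReal.mul_rpow_of_nonneg _ _ (by linarith),
      ENNReal.coe_rpow_of_nonneg _ (by linarith)]
  simp only [h4]
  rw [lintegral_const_mul' _ _ ENNReal.coe_ne_top, ENNReal.coe_mul, mul_assoc]

end Pool.Agent.TH370.VR
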